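import Pool.Agent.H13.CB.Final

/-! All four congruences of the problem, for every prime `p > 3`. -/

namespace Pool.Agent.Results.MP_021783_nt.AllFour

open Finset

/-- `x` lies in `Z_(p)`: its reduced denominator is not divisible by `p`. -/
def PInt (p : ℕ) (x : ℚ) : Prop := ¬ p ∣ x.den

/-- `a ≡ b` modulo `p ^ m` in `Z_(p)`: both sides are in `Z_(p)` and so is `(a - b) / p ^ m`. -/
def CongMod (p m : ℕ) (a b : ℚ) : Prop := PInt p a ∧ PInt p b ∧ PInt p ((a - b) / (p : ℚ) ^ m)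

/-- the harmonic number `H_k` -/
def H (k : ℕ) : ℚ := ∑ j ∈ Icc 1 k, 1 / (j : ℚ)

/-- the second order harmonic number `H_k^(2)` -/
def H2 (k : ℕ) : ℚ := ∑ j ∈ Icc 1 k, 1 / (j : ℚ) ^ 2

/-- the sum `S_m(p)` -/
def S (m p : ℕ) : ℚ := ∑ k ∈ Icc 1 (p - 1), ((2 * k).choose k : ℚ) * (H2 k / (k * (m : ℚ) ^ k))

/-- `W_p = H_{p-1} / p^2` -/
def W (p : ℕ) : ℚ := H (p - 1) / (p : ℚ) ^ 2

lemma PInt_of_phi (p : ℕ) [hp : Fact p.Prime] {q : ℚ} {z : ℤ_[p]} (h : H13.CB.phi p z = (q : ℚ_[p])) :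
    PInt p q := by
  have h1 : ‖(q : ℚ_[p])‖ ≤ 1 := by
    rw [← h]
    exact z.2
  have h2 := PadicInt.isUnit_den q h1
  rw [PadicInt.isUnit_iff, PadicInt.norm_natCast_eq_one_iff] at h2
  exact (Nat.Prime.coprime_iff_not_dvd hp.out).mp h2

lemma H2_eq (k : ℕ) : H2 k = H13.CB.HH k := by
  induction k with
  | zero => simp [H2, H13.CB.HH]
  | succ k ih =>
    rw [H13.CB.HH_succ, ← ih, H2, H2, sum_Icc_succ_top (by omega)]
    push_cast
    rfl

lemma Icc_eq_Ico (p : ℕ) (hp : 0 < p) : Icc 1 (p - 1) = Ico 1 p := by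
  ext k; simp only [mem_Icc, mem_Ico]; omega

lemma phi_S (p : ℕ) [hp : Fact p.Prime] {m : ℕ} (hm0 : 0 < m) (hm : m < p) :
    H13.CB.phi p (H13.CB.SZ p m) = (S m p : ℚ_[p]) := by
  rw [S, H13.CB.SZ, map_sum, Rat.cast_sum, Icc_eq_Ico p hp.out.pos]
  refine sum_congr rfl ?_
  intro k hk
  rw [mem_Ico] at hk
  rw [map_mul, map_pow, H13.CB.phi_sZ p (by omega) hk.2, H13.CB.phi_cZ p hm0 hm, H13.CB.ss, H2_eq]
  push_cast
  rw [one_div, inv_pow]
  ring

lemma phi_H (p : ℕ) [hp : Fact p.Prime] :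
    H13.CB.phi p (H13.CB.HZ p 1) = (H (p - 1) : ℚ_[p]) := by
  rw [H, H13.CB.HZ, map_sum, Rat.cast_sum, Icc_eq_Ico p hp.out.pos]
  refine sum_congr rfl ?_
  intro k hk
  rw [mem_Ico] at hk
  rw [pow_one, H13.CB.phi_cZ p (by omega) hk.2]
  push_cast
  rfl

lemma finish (p : ℕ) [hp : Fact p.Prime] (hp7 : 7 ≤ p) {m : ℕ} (hm : m = 1 ∨ m = 2 ∨ m = 3 ∨ m = 4)
    (den a b : ℤ)
    (hval : ∀ (A : Type) [CommRing A] (c : ℕ → A), (p : A) ^ 5 = 0 →
      (∀ k, 0 < k → k < p → (k : A) * c k = 1) →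
      (den : A) * (2 * m * (p ^ 2 * ∑ j ∈ Ico 1 p, (H13.CB.UU m (H13.CB.al p j) : A) * c j ^ 3)
      - 20 * (p ^ 4 * ∑ j ∈ Ico 1 p, (H13.CB.UU m (H13.CB.al p j) : A) * c j ^ 5)
      + m * (p ^ 3 * ∑ j ∈ Ico 1 p, c j ^ 4))
      = a * (∑ j ∈ Ico 1 p, c j) + b * (p ^ 3 * ∑ j ∈ Ico 1 p, c j ^ 4))
    (hu : IsUnit ((5 * den * (m : ℤ) ^ 2 : ℤ) : ℤ_[p])) (α β : ℚ)
    (hα : α * (den * (m : ℚ) ^ 2) = a) (hβ : β * (5 * den * (m : ℚ) ^ 2) = 4 * b) :
    CongMod p 3 (S m p) (α * W p + β * (p : ℚ) ^ 2 * bernoulli (p - 5)) := by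
  obtain ⟨Wz, B, hW, hB, z, hz⟩ := H13.CB.main5 p hp7 hm den a b hval
  obtain ⟨u, hu⟩ := hu
  have hpne : (p : ℚ_[p]) ≠ 0 := by
    have : (p : ℚ_[p]) ≠ ((0 : ℕ) : ℚ_[p]) := by
      intro h2
      have := Nat.cast_injective h2
      have := hp.out.pos
      omega
    simpa using this
  have hWq : H13.CB.phi p Wz = (W p : ℚ_[p]) := by
    have h := congrArg (H13.CB.phi p) hW
    rw [phi_H, map_mul, map_pow, map_natCast] at h
    rw [W]
    push_cast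
    rw [h]
    field_simp
  have hSq := phi_S p (m := m) (by omega) (by omega)
  have hui : H13.CB.phi p (↑u⁻¹ : ℤ_[p]) * (5 * (den : ℚ_[p]) * (m : ℚ_[p]) ^ 2) = 1 := by
    have h : (↑u⁻¹ : ℤ_[p]) * (u : ℤ_[p]) = 1 := Units.inv_mul u
    rw [hu] at h
    have h2 := congrArg (H13.CB.phi p) h
    simp only [map_mul, map_intCast, map_one] at h2
    push_cast at h2
    exact h2
  have hα' : (α : ℚ_[p]) * (den * (m : ℚ_[p]) ^ 2) = a := by
    have := congrArg (fun x : ℚ => (x : ℚ_[p])) hα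
    push_cast at this
    exact this
  have hβ' : (β : ℚ_[p]) * (5 * den * (m : ℚ_[p]) ^ 2) = 4 * b := by
    have := congrArg (fun x : ℚ => (x : ℚ_[p])) hβ
    push_cast at this
    exact this
  have hzq := congrArg (H13.CB.phi p) hz
  simp only [map_sub, map_add, map_mul, map_pow, map_natCast, map_intCast, map_ofNat] at hzq
  rw [hSq, hWq, hB] at hzq
  have hne : (5 * (den : ℚ_[p]) * (m : ℚ_[p]) ^ 2) ≠ 0 := right_ne_zero_of_mul_eq_one hui
  refine ⟨PInt_of_phi p hSq, PInt_of_phi p (z := (↑u⁻¹ : ℤ_[p]) * (5 * a * Wz + 4 * b * p ^ 2 * B)) ?_,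
    PInt_of_phi p (z := (↑u⁻¹ : ℤ_[p]) * z) ?_⟩
  · simp only [map_add, map_mul, map_pow, map_natCast, map_intCast, map_ofNat]
    rw [hWq, hB]
    push_cast
    linear_combination (-(5 * (W p : ℚ_[p])) * H13.CB.phi p (↑u⁻¹ : ℤ_[p])) * hα'
      - ((p : ℚ_[p]) ^ 2 * (bernoulli (p - 5) : ℚ_[p]) * H13.CB.phi p (↑u⁻¹ : ℤ_[p])) * hβ'
      + (α * W p + β * p ^ 2 * bernoulli (p - 5) : ℚ_[p]) * hui
  · simp only [map_mul]
    push_cast
    rw [eq_div_iff (pow_ne_zero 3 hpne)]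
    linear_combination (-H13.CB.phi p (↑u⁻¹ : ℤ_[p])) * hzq
      + ((5 * (W p : ℚ_[p])) * H13.CB.phi p (↑u⁻¹ : ℤ_[p])) * hα'
      + ((p : ℚ_[p]) ^ 2 * (bernoulli (p - 5) : ℚ_[p]) * H13.CB.phi p (↑u⁻¹ : ℤ_[p])) * hβ'
      + ((S m p : ℚ_[p]) - (α * W p + β * p ^ 2 * bernoulli (p - 5) : ℚ_[p])) * hui

lemma unit235 (p : ℕ) [hp : Fact p.Prime] (hp7 : 7 ≤ p) (a b c : ℕ) {n : ℤ} (h : n = 2 ^ a * 3 ^ b * 5 ^ c) :
    IsUnit (n : ℤ_[p]) := by
  have h2 := H13.CB.isUnit_small p hp7 (n := 2) (by omega)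
  have h3 := H13.CB.isUnit_small p hp7 (n := 3) (by omega)
  have h5 := H13.CB.isUnit_small p hp7 (n := 5) (by omega)
  rw [h]
  push_cast at h2 h3 h5 ⊢
  exact ((h2.pow a).mul (h3.pow b)).mul (h5.pow c)

lemma PInt_of_eq {p : ℕ} {x : ℚ} (n d : ℤ) (hx : x = n / d) (hd : ¬ (p : ℤ) ∣ d) : PInt p x := by
  intro h
  apply hd
  have h1 : (x.den : ℤ) ∣ d := by
    rw [hx, ← Rat.divInt_eq_div]
    exact Rat.den_dvd n d
  exact (Int.natCast_dvd_natCast.mpr h).trans h1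

/-- Q1 of the problem: all four congruences hold modulo `p ^ 3`, for every prime `p > 3`. -/
theorem result : ∀ p : ℕ, p.Prime → 3 < p →
    CongMod p 3 (S 1 p) (2 / 3 * W p + 76 / 135 * (p : ℚ) ^ 2 * bernoulli (p - 5)) ∧
    CongMod p 3 (S 2 p) (-3 / 16 * W p + 479 / 1280 * (p : ℚ) ^ 2 * bernoulli (p - 5)) ∧
    CongMod p 3 (S 3 p) (-8 / 9 * W p + 268 / 1215 * (p : ℚ) ^ 2 * bernoulli (p - 5)) ∧
    CongMod p 3 (S 4 p) (-3 / 2 * W p + 7 / 80 * (p : ℚ) ^ 2 * bernoulli (p - 5)) := by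
  intro p hp h3
  rcases Nat.lt_or_ge p 7 with h7 | h7
  · -- p = 5
    have hp5 : p = 5 := by
      have h4 : p ≠ 4 := by rintro rfl; exact absurd hp (by decide)
      have h6 : p ≠ 6 := by rintro rfl; exact absurd hp (by decide)
      omega
    subst hp5
    have hW : W 5 = 1 / 12 := by
      simp only [W, H, Nat.reduceSub, sum_Icc_succ_top (show 1 ≤ 3 + 1 by norm_num), sum_Icc_succ_top (show 1 ≤ 2 + 1 by norm_num),
        sum_Icc_succ_top (show 1 ≤ 1 + 1 by norm_num), Icc_self, sum_singleton]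
      norm_num
    have h1 : H2 1 = 1 := by simp [H2]
    have h2 : H2 2 = 5 / 4 := by
      rw [H2, sum_Icc_succ_top (by norm_num)]; simp; norm_num
    have h3' : H2 3 = 49 / 36 := by
      rw [H2, sum_Icc_succ_top (by norm_num), sum_Icc_succ_top (by norm_num)]; simp; norm_num
    have h4 : H2 4 = 205 / 144 := by
      rw [H2, sum_Icc_succ_top (by norm_num), sum_Icc_succ_top (by norm_num), sum_Icc_succ_top (by norm_num)]
      simp; norm_num
    have hS : ∀ m : ℕ, S m 5 = 2 / m + 15 / 4 / (m : ℚ) ^ 2 + 245 / 27 / (m : ℚ) ^ 3 + 7175 / 288 / (m : ℚ) ^ 4 := by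
      intro m
      have c1 : (2 * 1).choose 1 = 2 := by decide
      have c2 : (2 * 2).choose 2 = 6 := by decide
      have c3 : (2 * 3).choose 3 = 20 := by decide
      have c4 : (2 * 4).choose 4 = 70 := by decide
      rw [S, show 5 - 1 = 4 by norm_num, sum_Icc_succ_top (by norm_num), sum_Icc_succ_top (by norm_num),
        sum_Icc_succ_top (by norm_num), Icc_self, sum_singleton]
      norm_num only [h1, h2, h3', h4, c1, c2, c3, c4]
      ring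
    refine ⟨⟨PInt_of_eq 34333 864 ?_ ?_, PInt_of_eq 763 54 ?_ ?_, PInt_of_eq 59 288 ?_ ?_⟩,
      ⟨PInt_of_eq 63989 13824 ?_ ?_, PInt_of_eq 2391 256 ?_ ?_, PInt_of_eq (-521) 13824 ?_ ?_⟩,
      ⟨PInt_of_eq 13429 7776 ?_ ?_, PInt_of_eq 1322 243 ?_ ?_, PInt_of_eq (-77) 2592 ?_ ?_⟩,
      ⟨PInt_of_eq 215317 221184 ?_ ?_, PInt_of_eq 33 16 ?_ ?_, PInt_of_eq (-1927) 221184 ?_ ?_⟩⟩
    all_goals norm_num [hS, hW]
  · have : Fact p.Prime := ⟨hp⟩
    refine ⟨?_, ?_, ?_, ?_⟩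
    · refine finish p h7 (m := 1) (by norm_num) 3888 2592 2736 ?_ ?_ _ _ (by norm_num) (by norm_num)
      · intro A _ c h5 hc
        have := H13.CB.val1 (A := A) h7 h5 hc
        simpa [H13.CB.UU] using this
      · exact unit235 p h7 4 5 1 (by norm_num)
    · refine finish p h7 (m := 2) (by norm_num) 768 (-576) 1437 ?_ ?_ _ _ (by norm_num) (by norm_num)
      · intro A _ c h5 hc
        have := H13.CB.val2 (A := A) h7 h5 hc
        simpa [H13.CB.UU] using this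
      · exact unit235 p h7 10 1 1 (by norm_num)
    · refine finish p h7 (m := 3) (by norm_num) 324 (-2592) 804 ?_ ?_ _ _ (by norm_num) (by norm_num)
      · intro A _ c h5 hc
        have := H13.CB.val3 (A := A) h7 h5 hc
        simpa [H13.CB.UU] using this
      · exact unit235 p h7 2 6 1 (by norm_num)
    · refine finish p h7 (m := 4) (by norm_num) 4 (-96) 7 ?_ ?_ _ _ (by norm_num) (by norm_num)
      · intro A _ c h5 hc
        have := H13.CB.val4 (A := A) h7 h5 hc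
        simpa [H13.CB.UU] using this
      · exact unit235 p h7 6 0 1 (by norm_num)

end Pool.Agent.Results.MP_021783_nt.AllFour
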